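import Pool.Agent.Helper50.VD.St

open MeasureTheory Set Filter Topology
open scoped ENNReal

noncomputable section

namespace VD.M_E1

theorem integrable_inv_sq {A : ℝ} (hA : A ≠ 0) : Integrable fun p : ℝ => (p ^ 2 + A ^ 2)⁻¹ := by
  have h := (integrable_inv_one_add_sq.comp_div hA).const_mul ((A ^ 2)⁻¹)
  refine h.congr (Eventually.of_forall fun p => ?_)
  simp only
  rw [← mul_inv]
  congr 1
  field_simp
  ring

/-- The antiderivative. -/
def F (A B c p : ℝ) : ℝ :=
  (c / 2 * (Real.log (p ^ 2 + A ^ 2) - Real.log ((p + c) ^ 2 + B ^ 2)) +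
    (A + B) * (Real.arctan (p / A) + Real.arctan ((p + c) / B))) / (c ^ 2 + (A + B) ^ 2)

theorem hasDerivAt_F {A B c : ℝ} (hA : A ≠ 0) (hB : B ≠ 0) (hD : c ^ 2 + (A + B) ^ 2 ≠ 0) (p : ℝ) :
    HasDerivAt (F A B c)
      ((p * (p + c) + A * B) / ((p ^ 2 + A ^ 2) * ((p + c) ^ 2 + B ^ 2))) p := by
  have hA2 : p ^ 2 + A ^ 2 ≠ 0 := by positivity
  have hB2 : (p + c) ^ 2 + B ^ 2 ≠ 0 := by positivity
  have h1 : HasDerivAt (fun p : ℝ => p ^ 2 + A ^ 2) (2 * p) p := by
    simpa using (hasDerivAt_pow 2 p).add_const (A ^ 2)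
  have h2 : HasDerivAt (fun p : ℝ => (p + c) ^ 2 + B ^ 2) (2 * (p + c)) p := by
    have := (((hasDerivAt_id p).add_const c).pow 2).add_const (B ^ 2)
    simpa using this
  have h3 : HasDerivAt (fun p : ℝ => Real.arctan (p / A)) (1 / (1 + (p / A) ^ 2) * (1 / A)) p :=
    ((hasDerivAt_id p).div_const A).arctan
  have h4 : HasDerivAt (fun p : ℝ => Real.arctan ((p + c) / B))
      (1 / (1 + ((p + c) / B) ^ 2) * (1 / B)) p :=
    (((hasDerivAt_id p).add_const c).div_const B).arctan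
  have h5 := ((((h1.log hA2).sub (h2.log hB2)).const_mul (c / 2)).add
    ((h3.add h4).const_mul (A + B))).div_const (c ^ 2 + (A + B) ^ 2)
  have e1 : 1 / (1 + (p / A) ^ 2) * (1 / A) = A / (p ^ 2 + A ^ 2) := by
    field_simp
    ring
  have e2 : 1 / (1 + ((p + c) / B) ^ 2) * (1 / B) = B / ((p + c) ^ 2 + B ^ 2) := by
    field_simp
    ring
  rw [e1, e2] at h5
  have e3 : (p * (p + c) + A * B) / ((p ^ 2 + A ^ 2) * ((p + c) ^ 2 + B ^ 2)) =
      (c / 2 * (2 * p / (p ^ 2 + A ^ 2) - 2 * (p + c) / ((p + c) ^ 2 + B ^ 2)) +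
        (A + B) * (A / (p ^ 2 + A ^ 2) + B / ((p + c) ^ 2 + B ^ 2))) / (c ^ 2 + (A + B) ^ 2) := by
    field_simp
    ring
  rw [e3]
  exact h5

theorem log_tendsto {A B c : ℝ} {l : Filter ℝ} (hA : A ≠ 0) (hB : B ≠ 0)
    (hl : Tendsto (fun p : ℝ => p⁻¹) l (𝓝 0)) (hl0 : ∀ᶠ p in l, p ≠ 0) :
    Tendsto (fun p : ℝ => Real.log (p ^ 2 + A ^ 2) - Real.log ((p + c) ^ 2 + B ^ 2)) l (𝓝 0) := by
  have h1 : ContinuousAt (fun q : ℝ => Real.log ((1 + A ^ 2 * q ^ 2) /
      ((1 + c * q) ^ 2 + B ^ 2 * q ^ 2))) 0 := by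
    refine ContinuousAt.log (ContinuousAt.div (by fun_prop) (by fun_prop) (by norm_num)) ?_
    norm_num
  have h2 : Tendsto (fun q : ℝ => Real.log ((1 + A ^ 2 * q ^ 2) /
      ((1 + c * q) ^ 2 + B ^ 2 * q ^ 2))) (𝓝 0) (𝓝 0) := by
    have := h1.tendsto
    simpa using this
  refine (h2.comp hl).congr' ?_
  filter_upwards [hl0] with p hp
  have hA2 : p ^ 2 + A ^ 2 ≠ 0 := by positivity
  have hB2 : (p + c) ^ 2 + B ^ 2 ≠ 0 := by positivity
  rw [← Real.log_div hA2 hB2, Function.comp_apply]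
  congr 1
  field_simp

theorem arctan_tendsto_top {A : ℝ} (hA : A ≠ 0) (c : ℝ) :
    Tendsto (fun p : ℝ => Real.arctan ((p + c) / A)) atTop (𝓝 (Real.sign A * (Real.pi / 2))) := by
  have h0 : Tendsto (fun p : ℝ => p + c) atTop atTop := tendsto_atTop_add_const_right _ _ tendsto_id
  rcases lt_or_gt_of_ne hA with h | h
  · rw [Real.sign_of_neg h, neg_one_mul]
    exact (Real.tendsto_arctan_atBot.mono_right nhdsWithin_le_nhds).comp
      (h0.atTop_div_const_of_neg h)
  · rw [Real.sign_of_pos h, one_mul]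
    exact (Real.tendsto_arctan_atTop.mono_right nhdsWithin_le_nhds).comp (h0.atTop_div_const h)

theorem arctan_tendsto_bot {A : ℝ} (hA : A ≠ 0) (c : ℝ) :
    Tendsto (fun p : ℝ => Real.arctan ((p + c) / A)) atBot
      (𝓝 (-(Real.sign A * (Real.pi / 2)))) := by
  have h0 : Tendsto (fun p : ℝ => p + c) atBot atBot := tendsto_atBot_add_const_right _ _ tendsto_id
  rcases lt_or_gt_of_ne hA with h | h
  · rw [Real.sign_of_neg h, neg_one_mul, neg_neg]
    have h1 : Tendsto (fun p : ℝ => (p + c) / A) atBot atTop := by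
      have h2 := h0.atBot_mul_const_of_neg (inv_lt_zero.2 h)
      simpa [div_eq_mul_inv] using h2
    exact (Real.tendsto_arctan_atTop.mono_right nhdsWithin_le_nhds).comp h1
  · rw [Real.sign_of_pos h, one_mul]
    exact (Real.tendsto_arctan_atBot.mono_right nhdsWithin_le_nhds).comp (h0.atBot_div_const h)

end VD.M_E1

namespace VD

open VD.M_E1

/-- one dimensional rational integral (partial fractions) -/
theorem mE1 : StE1 := by
  intro A B c hA hB hc
  have hD : c ^ 2 + (A + B) ^ 2 ≠ 0 := by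
    rcases hc with h | h
    · positivity
    · positivity
  have hint : Integrable (fun p : ℝ =>
      (p * (p + c) + A * B) / ((p ^ 2 + A ^ 2) * ((p + c) ^ 2 + B ^ 2))) := by
    have h1 := integrable_inv_sq hA
    have h2 := (integrable_inv_sq hB).comp_add_right c
    refine (h1.add h2).mono' ?_ (Eventually.of_forall fun p => ?_)
    · refine Continuous.aestronglyMeasurable ?_
      refine Continuous.div (by fun_prop) (by fun_prop) fun p => ?_
      have hA2 : p ^ 2 + A ^ 2 ≠ 0 := by positivity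
      have hB2 : (p + c) ^ 2 + B ^ 2 ≠ 0 := by positivity
      exact mul_ne_zero hA2 hB2
    · have hA2 : 0 < p ^ 2 + A ^ 2 := by positivity
      have hB2 : 0 < (p + c) ^ 2 + B ^ 2 := by positivity
      rw [Real.norm_eq_abs, abs_div, abs_of_pos (mul_pos hA2 hB2), Pi.add_apply,
        inv_add_inv hA2.ne' hB2.ne', div_le_div_iff_of_pos_right (mul_pos hA2 hB2), abs_le]
      constructor
      · nlinarith [sq_nonneg (p + (p + c)), sq_nonneg (A + B), sq_nonneg p, sq_nonneg (p + c)]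
      · nlinarith [sq_nonneg (p - (p + c)), sq_nonneg (A - B), sq_nonneg p, sq_nonneg (p + c)]
  refine ⟨hint, ?_⟩
  have htop : Tendsto (F A B c) atTop (𝓝 ((c / 2 * 0 + (A + B) * (Real.sign A * (Real.pi / 2) +
      Real.sign B * (Real.pi / 2))) / (c ^ 2 + (A + B) ^ 2))) := by
    refine Tendsto.div_const (Tendsto.add (Tendsto.const_mul _ ?_) (Tendsto.const_mul _
      (Tendsto.add ?_ (arctan_tendsto_top hB c)))) _
    · exact log_tendsto hA hB tendsto_inv_atTop_zero (eventually_ne_atTop 0)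
    · simpa using arctan_tendsto_top hA 0
  have hbot : Tendsto (F A B c) atBot (𝓝 ((c / 2 * 0 + (A + B) * (-(Real.sign A * (Real.pi / 2)) +
      -(Real.sign B * (Real.pi / 2)))) / (c ^ 2 + (A + B) ^ 2))) := by
    refine Tendsto.div_const (Tendsto.add (Tendsto.const_mul _ ?_) (Tendsto.const_mul _
      (Tendsto.add ?_ (arctan_tendsto_bot hB c)))) _
    · exact log_tendsto hA hB tendsto_inv_atBot_zero (eventually_ne_atBot 0)
    · simpa using arctan_tendsto_bot hA 0
  rw [integral_of_hasDerivAt_of_tendsto (hasDerivAt_F hA hB hD) hint hbot htop]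
  field_simp
  ring

end VD
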