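import Pool.Agent.Helper50.VD.St

open MeasureTheory Set Filter Topology
open scoped ENNReal

noncomputable section

namespace VD.M_T1

/-- The linear change of variables `(r, s) ↦ s Q + (r - s) Q'`. -/
def L (Q Q' : ℝ × ℝ) : ℝ × ℝ →L[ℝ] ℝ × ℝ :=
  (Matrix.toLin (Module.Basis.finTwoProd ℝ) (Module.Basis.finTwoProd ℝ)
    !![Q'.1, Q.1 - Q'.1; Q'.2, Q.2 - Q'.2]).toContinuousLinearMap

theorem L_apply (Q Q' p : ℝ × ℝ) :
    L Q Q' p = (Q'.1 * p.1 + (Q.1 - Q'.1) * p.2, Q'.2 * p.1 + (Q.2 - Q'.2) * p.2) := by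
  unfold L
  rw [LinearMap.coe_toContinuousLinearMap', Matrix.toLin_finTwoProd_apply]

theorem L_det (Q Q' : ℝ × ℝ) : (L Q Q').det = Q'.1 * Q.2 - Q.1 * Q'.2 := by
  unfold L
  rw [LinearMap.det_toContinuousLinearMap, LinearMap.det_toLin, Matrix.det_fin_two_of]
  ring

/-- The parameter region. -/
def R (a b : ℝ) : Set (ℝ × ℝ) := {p | a < p.1 ∧ p.1 < b ∧ 0 < p.2 ∧ p.2 < p.1}

theorem isOpen_R (a b : ℝ) : IsOpen (R a b) := by
  unfold R
  simp only [ofPred_and]
  exact (isOpen_lt continuous_const continuous_fst).inter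
    ((isOpen_lt continuous_fst continuous_const).inter
    ((isOpen_lt continuous_const continuous_snd).inter (isOpen_lt continuous_snd continuous_fst)))

theorem sec_eq (Q Q' : ℝ × ℝ) (a b : ℝ) : sec Q Q' a b = L Q Q' '' R a b := by
  ext y
  constructor
  · rintro ⟨s, t, hs, ht, h1, h2, h3, h4⟩
    refine ⟨(s + t, s), ⟨h1, h2, hs, by simpa using ht⟩, ?_⟩
    rw [L_apply]
    refine Prod.ext ?_ ?_
    · rw [h3]; ring
    · rw [h4]; ring
  · rintro ⟨p, ⟨h1, h2, h3, h4⟩, rfl⟩
    refine ⟨p.2, p.1 - p.2, h3, by linarith, by linarith, by linarith, ?_, ?_⟩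
    · rw [L_apply]; ring
    · rw [L_apply]; ring

theorem L_inj {Q Q' : ℝ × ℝ} (h : 0 < Q'.1 * Q.2 - Q.1 * Q'.2) :
    Function.Injective (L Q Q') := by
  intro p p' hp
  rw [L_apply, L_apply, Prod.mk.injEq] at hp
  obtain ⟨h1, h2⟩ := hp
  have e1 : (Q'.1 * Q.2 - Q.1 * Q'.2) * (p.1 - p'.1) = 0 := by
    linear_combination (Q.2 - Q'.2) * h1 - (Q.1 - Q'.1) * h2
  have e2 : (Q'.1 * Q.2 - Q.1 * Q'.2) * (p.2 - p'.2) = 0 := by
    linear_combination Q'.1 * h2 - Q'.2 * h1
  exact Prod.ext (sub_eq_zero.1 ((mul_eq_zero.1 e1).resolve_left h.ne'))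
    (sub_eq_zero.1 ((mul_eq_zero.1 e2).resolve_left h.ne'))

theorem R_subset {a b : ℝ} : R a b ⊆ Icc 0 b ×ˢ Icc 0 b := by
  rintro p ⟨h1, h2, h3, h4⟩
  exact ⟨⟨by linarith, h2.le⟩, ⟨h3.le, by linarith⟩⟩

theorem integral_R (α β a b : ℝ) (ha : 0 ≤ a) (hab : a < b) :
    ∫ p in R a b, (β * p.1 + (α - β) * p.2) = (b ^ 3 - a ^ 3) * (α + β) / 6 := by
  have hint : IntegrableOn (fun p : ℝ × ℝ => β * p.1 + (α - β) * p.2) (R a b) :=
    ((by fun_prop : Continuous fun p : ℝ × ℝ => β * p.1 + (α - β) * p.2).continuousOn.integrableOn_compact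
      (isCompact_Icc.prod isCompact_Icc)).mono_set R_subset
  have hm := (isOpen_R a b).measurableSet
  rw [← integral_indicator hm, Measure.volume_eq_prod, integral_prod _ (by
    rw [← Measure.volume_eq_prod]
    exact (integrable_indicator_iff hm).2 hint)]
  have h1 : ∀ r : ℝ, ∫ s : ℝ, (R a b).indicator (fun p : ℝ × ℝ => β * p.1 + (α - β) * p.2) (r, s) =
      (Ioo a b).indicator (fun r => (α + β) / 2 * r ^ 2) r := by
    intro r
    by_cases hr : r ∈ Ioo a b
    · rw [indicator_of_mem hr]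
      have h2 : (fun s : ℝ => (R a b).indicator (fun p : ℝ × ℝ => β * p.1 + (α - β) * p.2) (r, s)) =
          (Ioo 0 r).indicator (fun s => β * r + (α - β) * s) := by
        funext s
        by_cases hs : s ∈ Ioo 0 r
        · rw [indicator_of_mem hs, indicator_of_mem (show (r, s) ∈ R a b from
            ⟨hr.1, hr.2, hs.1, hs.2⟩)]
        · rw [indicator_of_notMem hs, indicator_of_notMem (fun h => hs ⟨h.2.2.1, h.2.2.2⟩)]
      rw [h2, integral_indicator measurableSet_Ioo, ← integral_Ioc_eq_integral_Ioo,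
        ← intervalIntegral.integral_of_le (by linarith [hr.1])]
      rw [intervalIntegral.integral_add intervalIntegrable_const
        ((by fun_prop : Continuous fun s : ℝ => (α - β) * s).intervalIntegrable _ _),
        intervalIntegral.integral_const,
        intervalIntegral.integral_const_mul, integral_id]
      simp only [smul_eq_mul]
      ring
    · rw [indicator_of_notMem hr]
      have h2 : (fun s : ℝ => (R a b).indicator (fun p : ℝ × ℝ => β * p.1 + (α - β) * p.2) (r, s)) =
          fun _ => 0 := by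
        funext s
        rw [indicator_of_notMem (fun h => hr ⟨h.1, h.2.1⟩)]
      rw [h2, integral_zero]
  simp only [h1]
  rw [integral_indicator measurableSet_Ioo, ← integral_Ioc_eq_integral_Ioo,
    ← intervalIntegral.integral_of_le hab.le, intervalIntegral.integral_const_mul, integral_pow]
  push_cast
  ring

end VD.M_T1

namespace VD

open VD.M_T1

/-- measure of a sector slab (linear change of variables) -/
theorem mT1 : StT1 := by
  intro Q Q' a b _ _ _ _ hD ha hab
  have hm : MeasurableSet (sec Q Q' a b) := by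
    rw [sec_eq]
    exact (isOpen_R a b).measurableSet.image_of_continuousOn_injOn (L Q Q').continuous.continuousOn
      (L_inj hD).injOn
  have hint : IntegrableOn (fun y : ℝ × ℝ => y.2) (sec Q Q' a b) := by
    rw [sec_eq]
    exact (continuous_snd.continuousOn.integrableOn_compact
      ((isCompact_Icc.prod isCompact_Icc).image (L Q Q').continuous)).mono_set
      (image_mono R_subset)
  refine ⟨hm, hint, ?_⟩
  rw [sec_eq, integral_image_eq_integral_abs_det_fderiv_smul volume (isOpen_R a b).measurableSet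
    (fun x _ => (L Q Q').hasFDerivAt.hasFDerivWithinAt) (L_inj hD).injOn]
  simp only [L_det, L_apply, smul_eq_mul, abs_of_pos hD]
  rw [integral_const_mul, integral_R Q.2 Q'.2 a b ha hab]
  ring

end VD
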