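import Pool.Agent.Helper50.VD.St

open MeasureTheory Set Filter Topology
open scoped ENNReal

noncomputable section

namespace VD.M_U2

/-- The reflection. -/
def rfx (z : ℝ × ℝ) : ℝ × ℝ := (-z.1, z.2)

theorem rfx_rfx (z : ℝ × ℝ) : rfx (rfx z) = z := by
  unfold rfx
  simp

theorem rfx_mp : MeasurePreserving rfx (volume : Measure (ℝ × ℝ)) volume := by
  have h := (Measure.measurePreserving_neg (volume : Measure ℝ)).prod
    (MeasurePreserving.id (volume : Measure ℝ))
  exact h

theorem rfx_emb : MeasurableEmbedding rfx := by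
  have h : Continuous rfx := by unfold rfx; fun_prop
  exact (Homeomorph.mk ⟨rfx, rfx, rfx_rfx, rfx_rfx⟩ h h).measurableEmbedding

/-- The right half plane. -/
def H : Set (ℝ × ℝ) := {z | 0 < z.1}

theorem measurableSet_H : MeasurableSet H := measurableSet_lt measurable_const measurable_fst

theorem null_line : volume {z : ℝ × ℝ | z.1 = 0} = 0 := by
  have h : {z : ℝ × ℝ | z.1 = 0} = {0} ×ˢ univ := by
    ext z
    simp
  rw [h, Measure.volume_eq_prod, Measure.prod_prod, Real.volume_singleton, zero_mul]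

theorem split {D : Set (ℝ × ℝ)} (hD : MeasurableSet D) (hs : ∀ z ∈ D, rfx z ∈ D)
    {f : ℝ × ℝ → ℝ} (hf : IntegrableOn f D) :
    IntegrableOn (fun z => f z + f (rfx z)) (D ∩ H) ∧
      ∫ z in D, f z = ∫ z in D ∩ H, (f z + f (rfx z)) := by
  have hpre : rfx ⁻¹' (D ∩ rfx ⁻¹' H) = D ∩ H := by
    ext z
    constructor
    · rintro ⟨h1, h2⟩
      have h3 := hs _ h1
      rw [rfx_rfx] at h3
      have h4 : rfx (rfx z) ∈ H := h2
      rw [rfx_rfx] at h4
      exact ⟨h3, h4⟩
    · rintro ⟨h1, h2⟩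
      refine ⟨hs _ h1, ?_⟩
      change rfx (rfx z) ∈ H
      rw [rfx_rfx]
      exact h2
  have hH' : MeasurableSet (rfx ⁻¹' H) := rfx_mp.measurable measurableSet_H
  have i1 : IntegrableOn f (D ∩ H) := hf.mono_set inter_subset_left
  have i2 : IntegrableOn f (D ∩ rfx ⁻¹' H) := hf.mono_set inter_subset_left
  have i3 : IntegrableOn (fun z => f (rfx z)) (D ∩ H) := by
    have := (rfx_mp.integrableOn_comp_preimage rfx_emb (f := f) (s := D ∩ rfx ⁻¹' H)).2 i2
    rw [hpre] at this
    exact this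
  refine ⟨i1.add i3, ?_⟩
  rw [integral_add i1 i3]
  have h1 : ∫ z in D ∩ H, f (rfx z) = ∫ z in D ∩ rfx ⁻¹' H, f z := by
    have := rfx_mp.setIntegral_preimage_emb rfx_emb f (D ∩ rfx ⁻¹' H)
    rw [hpre] at this
    exact this
  rw [h1, ← setIntegral_union ?_ (hD.inter hH') i1 i2]
  · refine setIntegral_congr_set ?_
    have h2 : D \ (D ∩ H ∪ D ∩ rfx ⁻¹' H) ⊆ {z : ℝ × ℝ | z.1 = 0} := by
      rintro z ⟨h3, h4⟩
      by_contra h5
      rcases lt_or_gt_of_ne (show z.1 ≠ 0 from h5) with h6 | h6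
      · exact h4 (Or.inr ⟨h3, show 0 < -z.1 by linarith⟩)
      · exact h4 (Or.inl ⟨h3, h6⟩)
    refine (ae_eq_set.2 ⟨measure_mono_null h2 null_line, ?_⟩)
    rw [show (D ∩ H ∪ D ∩ rfx ⁻¹' H) \ D = ∅ from ?_]
    · exact measure_empty
    · rw [sdiff_eq_empty]
      exact union_subset inter_subset_left inter_subset_left
  · rw [disjoint_left]
    rintro z ⟨_, h2⟩ ⟨_, h3⟩
    have h4 : 0 < z.1 := h2
    have h5 : 0 < -z.1 := h3
    linarith

end VD.M_U2

namespace VD

open VD.M_U2

/-- slicing (Fubini + symmetry) -/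
theorem mU2 (hK1 : StK1) (hK2 : StK2) (hP0 : StP0) : StU2 := by
  intro A ρ p q hc
  obtain ⟨_, _, _, _, _, _, hPB⟩ := hP0
  have hP1 := (hPB 1 one_pos).1
  have hPρ := (hPB ρ hc.hρ).1
  have hA := hc.dm
  have hsym : ∀ {C : Set (ℝ × ℝ)}, DM C → ∀ z, rfx z ∈ C ↔ z ∈ C := by
    intro C hC z
    refine ⟨fun h => ?_, fun h => hC.symm h⟩
    have := hC.symm h
    have h2 : ((-(rfx z).1, (rfx z).2) : ℝ × ℝ) = z := rfx_rfx z
    rwa [h2] at this
  set D1 := PB 1 \ A with hD1
  set D2 := A \ PB ρ with hD2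
  have m1 : MeasurableSet D1 := hP1.meas.diff hA.meas
  have m2 : MeasurableSet D2 := hA.meas.diff hPρ.meas
  have s1 : D1 ⊆ Om := sdiff_subset.trans hP1.sub
  have s2 : D2 ⊆ Om := sdiff_subset.trans hA.sub
  have v1 : volume D1 < ∞ := lt_of_le_of_lt (measure_mono sdiff_subset) hP1.vol
  have v2 : volume D2 < ∞ := lt_of_le_of_lt (measure_mono sdiff_subset) hA.vol
  have r1 : ∀ z ∈ D1, rfx z ∈ D1 := fun z hz => ⟨(hsym hP1 z).2 hz.1, fun h => hz.2 ((hsym hA z).1 h)⟩
  have r2 : ∀ z ∈ D2, rfx z ∈ D2 := fun z hz => ⟨(hsym hA z).2 hz.1, fun h => hz.2 ((hsym hPρ z).1 h)⟩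
  obtain ⟨i1, e1⟩ := split m1 r1 (hK2 D1 m1 s1 v1 p hc.p2).1
  obtain ⟨i2, e2⟩ := split m2 r2 (hK2 D2 m2 s2 v2 q hc.q2).1
  have hN : ∀ z y : ℝ × ℝ, 0 ≤ z.2 → 0 < y.2 → 0 ≤ N z y := by
    intro z y hz hy
    by_cases h : z = y
    · subst h
      unfold N
      rw [if_neg hy.ne']
      unfold G
      simp
    · exact (hK1 z y hz hy h).1.le
  -- the function on the plane
  let F : ℝ × ℝ → ℝ := fun z => (D1 ∩ H).indicator (fun z => N p z + N p (rfx z)) z +
    (D2 ∩ H).indicator (fun z => N q z + N q (rfx z)) z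
  have hF : Integrable F := ((integrable_indicator_iff (m1.inter measurableSet_H)).2 i1).add
    ((integrable_indicator_iff (m2.inter measurableSet_H)).2 i2)
  have hrow : ∀ s, Irow A ρ p q s = ∫ y : ℝ, F (y, s) := by
    intro s
    unfold Irow
    rw [← integral_indicator measurableSet_Ioi]
    congr 1
    funext y
    by_cases hy : y ∈ Ioi (0 : ℝ)
    · rw [indicator_of_mem hy]
      have hH : ∀ D : Set (ℝ × ℝ), ((y, s) ∈ D ∩ H ↔ (y, s) ∈ D) := fun D =>
        ⟨fun h => h.1, fun h => ⟨h, hy⟩⟩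
      simp only [F]
      congr 1
      · by_cases h : (y, s) ∈ D1
        · rw [indicator_of_mem h, indicator_of_mem ((hH D1).2 h)]
          rfl
        · rw [indicator_of_notMem h, indicator_of_notMem (fun h2 => h ((hH D1).1 h2))]
      · by_cases h : (y, s) ∈ D2
        · rw [indicator_of_mem h, indicator_of_mem ((hH D2).2 h)]
          rfl
        · rw [indicator_of_notMem h, indicator_of_notMem (fun h2 => h ((hH D2).1 h2))]
    · rw [indicator_of_notMem hy]
      simp only [F]
      rw [indicator_of_notMem (fun h => hy h.2), indicator_of_notMem (fun h => hy h.2), add_zero]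
  have hrow' : Irow A ρ p q = fun s => ∫ y : ℝ, F (y, s) := funext hrow
  have hFnn : ∀ z, 0 ≤ F z := by
    intro z
    refine add_nonneg (indicator_nonneg (fun z hz => ?_) z) (indicator_nonneg (fun z hz => ?_) z)
    · exact add_nonneg (hN p z hc.p2 (s1 hz.1)) (hN p (rfx z) hc.p2 (s1 (r1 z hz.1)))
    · exact add_nonneg (hN q z hc.q2 (s2 hz.1)) (hN q (rfx z) hc.q2 (s2 (r2 z hz.1)))
  have hint : Integrable (Irow A ρ p q) := by
    rw [hrow']
    exact hF.integral_prod_right
  refine ⟨hint.integrableOn, fun s => ?_, ?_⟩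
  · rw [hrow]
    exact integral_nonneg fun y => hFnn _
  · rw [setIntegral_eq_integral_of_forall_compl_eq_zero (f := Irow A ρ p q), hrow']
    · rw [e1, e2, ← integral_indicator (m1.inter measurableSet_H),
        ← integral_indicator (m2.inter measurableSet_H),
        ← integral_add ((integrable_indicator_iff (m1.inter measurableSet_H)).2 i1)
          ((integrable_indicator_iff (m2.inter measurableSet_H)).2 i2)]
      exact integral_prod_symm F hF
    · intro s hs
      rw [hrow]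
      have : ∀ y, F (y, s) = 0 := by
        intro y
        simp only [F]
        rw [indicator_of_notMem (fun h => hs (s1 h.1)), indicator_of_notMem (fun h => hs (s2 h.1)),
          add_zero]
      simp only [this, integral_zero]

end VD
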